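import Mathlib

/-!
# The word problem in varieties of associative algebras

Project WK (problem MP_f5ceca_al), by helper817.

Associative algebras need not have a unit.  A noncommutative polynomial without constant term over `K` in
the letters `X` is given by a list of terms `(c, x, l)`: the coefficient `c : K` and the nonempty word
`x :: l`.
-/

set_option autoImplicit false

namespace Pool.Agent.Y817.WK

/-- The value of the nonempty word `x :: l` when the letter `y` has the value `a y`. -/
def evalWord {X A : Type} [Mul A] (a : X → A) (x : X) (l : List X) : A :=
  l.foldl (fun u y => u * a y) (a x)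

/-- The value of a noncommutative polynomial. -/
def evalPoly {K X A : Type} [Field K] [NonUnitalRing A] [Module K A] (a : X → A)
    (f : List (K × X × List X)) : A :=
  (f.map fun t => t.1 • evalWord a t.2.1 t.2.2).sum

/-- `A` belongs to the variety defined by the set `Id` of identities (in the letters `ℕ`). -/
def InVar {K : Type} [Field K] (Id : Set (List (K × ℕ × List ℕ))) (A : Type) [NonUnitalRing A]
    [Module K A] : Prop :=
  ∀ f ∈ Id, ∀ a : ℕ → A, evalPoly a f = 0

/-- `A` satisfies the identities `x[y,z][t,u]v = 0` and `x[y,z,t]u = 0`. -/
def InW (A : Type) [NonUnitalRing A] : Prop :=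
  (∀ x y z t u v : A, x * (y * z - z * y) * (t * u - u * t) * v = 0) ∧
  (∀ x y z t u : A, x * ((y * z - z * y) * t - t * (y * z - z * y)) * u = 0)

/-- The variety defined by `Id` contains the variety defined by `x[y,z][t,u]v = 0`, `x[y,z,t]u = 0`. -/
def ContainsW (K : Type) [Field K] (Id : Set (List (K × ℕ × List ℕ))) : Prop :=
  ∀ (A : Type) [NonUnitalRing A] [Module K A] [IsScalarTower K A A] [SMulCommClass K A A],
    InW A → InVar Id A

/-- The polynomial `w` is equal to zero in the algebra presented by the generators `X` and the
relations `r = 0`, `r ∈ R`, in the variety defined by `Id`: it vanishes at every point of every algebra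
of the variety at which all members of `R` vanish. -/
def ZeroIn {K : Type} [Field K] (Id : Set (List (K × ℕ × List ℕ))) {X : Type}
    (R : List (List (K × X × List X))) (w : List (K × X × List X)) : Prop :=
  ∀ (A : Type) [NonUnitalRing A] [Module K A] [IsScalarTower K A A] [SMulCommClass K A A],
    InVar Id A → ∀ a : X → A, (∀ r ∈ R, evalPoly a r = 0) → evalPoly a w = 0

/-- The word problem of this finitely presented algebra of the variety is decidable, when the
elements of `K` are coded by natural numbers through `ν`. -/
def DecidableWP {K : Type} [Field K] (ν : ℕ → K) (Id : Set (List (K × ℕ × List ℕ))) {k : ℕ}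
    (R : List (List (K × Fin k × List (Fin k)))) : Prop :=
  ComputablePred fun w : List (ℕ × Fin k × List (Fin k)) =>
    ZeroIn Id R (w.map fun t => (ν t.1, t.2))

end Pool.Agent.Y817.WK
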