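import Pool.Agent.Y817.WK.Model

/-!
# Assembly
-/

set_option autoImplicit false

namespace Pool.Agent.Y817.WK

/-- The main statement. -/
def StmMain : Prop :=
  ∃ (k : ℕ) (R : List (List (ℤ × Fin k × List (Fin k)))),
    ∀ (K : Type) [Field K] [CharZero K] (ν : ℕ → K), Function.Surjective ν →
      ∀ Id : Set (List (K × ℕ × List ℕ)), ContainsW K Id →
        ¬ DecidableWP ν Id (R.map fun r => r.map fun t => ((t.1 : K), t.2))

/-! ### The set -/

theorem cp_comp {α β : Type} [Primcodable α] [Primcodable β] {P : β → Prop} {f : α → β}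
    (h : ComputablePred P) (hf : Computable f) : ComputablePred fun x => P (f x) := by
  obtain ⟨d, hd⟩ := h
  exact ⟨fun c => d (f c), hd.comp hf⟩

theorem exists_set : ∃ S : ℕ → Prop, REPred S ∧ ¬ ComputablePred S := by
  refine ⟨fun c => ((Denumerable.ofNat Nat.Partrec.Code c).eval 0).Dom, ?_, ?_⟩
  · have h := ComputablePred.halting_problem_re 0
    unfold REPred at *
    exact h.comp (Computable.ofNat Nat.Partrec.Code)
  · intro h
    apply ComputablePred.halting_problem 0
    have h2 := cp_comp (f := fun c : Nat.Partrec.Code => Encodable.encode c) h Computable.encode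
    refine h2.of_eq fun c => ?_
    simp

/-! ### Evaluation -/

section
variable {X Y A : Type} [NonUnitalRing A]

/-- Evaluation of a polynomial with integral coefficients. -/
def evalZ (a : X → A) (f : List (ℤ × X × List X)) : A :=
  (f.map fun t => t.1 • evalWord a t.2.1 t.2.2).sum

theorem evalPoly_cast {K : Type} [Field K] [Module K A] (a : X → A)
    (f : List (ℤ × X × List X)) :
    evalPoly a (f.map fun t => ((t.1 : K), t.2)) = evalZ a f := by
  unfold evalPoly evalZ
  rw [List.map_map]
  congr 1
  refine List.map_congr_left fun t _ => ?_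
  exact Int.cast_smul_eq_zsmul K t.1 _

theorem evalZ_nil (a : X → A) : evalZ a [] = 0 := rfl

theorem evalZ_cons (a : X → A) (t : ℤ × X × List X) (f : List (ℤ × X × List X)) :
    evalZ a (t :: f) = t.1 • evalWord a t.2.1 t.2.2 + evalZ a f := by
  simp [evalZ]

theorem evalZ_append (a : X → A) (f f' : List (ℤ × X × List X)) :
    evalZ a (f ++ f') = evalZ a f + evalZ a f' := by
  simp [evalZ]

theorem evalZ_flatMap {J : Type} (a : X → A) (L : List J) (F : J → List (ℤ × X × List X)) :
    evalZ a (L.flatMap F) = (L.map fun j => evalZ a (F j)).sum := by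
  induction L with
  | nil => rfl
  | cons j L ih => rw [List.flatMap_cons, evalZ_append, ih, List.map_cons, List.sum_cons]

theorem evalZ_map {J : Type} (a : X → A) (L : List J) (F : J → ℤ × X × List X) :
    evalZ a (L.map F) = (L.map fun j => (F j).1 • evalWord a (F j).2.1 (F j).2.2).sum := by
  unfold evalZ
  rw [List.map_map]
  rfl

theorem sum_finRange {n : ℕ} (f : Fin n → A) : ((List.finRange n).map f).sum = ∑ i, f i := by
  rw [← List.ofFn_eq_map, List.sum_ofFn]

theorem evalWord_map (e : X → Y) (a : Y → A) (x : X) (l : List X) :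
    evalWord a (e x) (l.map e) = evalWord (fun y => a (e y)) x l := by
  unfold evalWord
  rw [List.foldl_map]

/-- Renaming of the letters. -/
def ren (e : X → Y) (f : List (ℤ × X × List X)) : List (ℤ × Y × List Y) :=
  f.map fun t => (t.1, e t.2.1, t.2.2.map e)

theorem evalZ_ren (e : X → Y) (a : Y → A) (f : List (ℤ × X × List X)) :
    evalZ a (ren e f) = evalZ (fun y => a (e y)) f := by
  unfold ren
  rw [evalZ_map]
  unfold evalZ
  simp only [evalWord_map]

end

/-! ### The relations as polynomials -/

section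
variable {a b : ℕ} (n : Fin a) (Q : Fin b → Quad (Fin a))

/-- The list of relators. -/
def relL : List (List (ℤ × Gen (Fin a) (Fin b) × List (Gen (Fin a) (Fin b)))) :=
  ((List.finRange a).flatMap fun j => (List.finRange a).map fun k =>
    [(1, Gen.x j, [Gen.e k]), (-1, Gen.e k, [Gen.x j])] ++
      (if j = k then [(1, Gen.x k, [Gen.z])] else [])) ++
  ((List.finRange a).map fun j => [(1, Gen.z, [Gen.x j]), (-1, Gen.x j, [Gen.z])]) ++
  ((List.finRange a).map fun k => [(1, Gen.p, [Gen.e k])]) ++
  [[(1, Gen.z, [Gen.q0])] ++ ((List.finRange a).map fun k => (1, Gen.e k, [Gen.q1 k])) ++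
    ((List.finRange b).map fun s => ((Q s).d, Gen.z, [Gen.q2 s]))] ++
  ((List.finRange a).map fun k => [(1, Gen.z, [Gen.q1 k])] ++
    ((List.finRange b).flatMap fun s => [((Q s).B k, Gen.z, [Gen.q2 s])] ++
      ((List.finRange a).map fun i => (-(Q s).A i k, Gen.e i, [Gen.q2 s])))) ++
  ((List.finRange a).flatMap fun i => if i = n then [] else
    [[(1, Gen.z, [Gen.q0]), (-1, Gen.x i, [Gen.z, Gen.q0])]])

theorem relL_iff {A : Type} [NonUnitalRing A] (g : Gen (Fin a) (Fin b) → A) :
    (∀ r ∈ relL n Q, evalZ g r = 0) ↔ Rel n Q g := by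
  have hxe : ∀ j k, evalZ g ([(1, Gen.x j, [Gen.e k]), (-1, Gen.e k, [Gen.x j])] ++
      (if j = k then [(1, Gen.x k, [Gen.z])] else [])) = 0 ↔
      g (.x j) * g (.e k) = g (.e k) * g (.x j) - (if j = k then g (.x k) * g .z else 0) := by
    intro j k
    split_ifs
    · simp only [evalZ_append, evalZ_cons, evalZ_nil, evalWord, List.foldl_cons, List.foldl_nil,
        one_smul, neg_smul, add_zero]
      constructor
      · intro h
        rw [← sub_eq_zero, ← h]
        abel
      · intro h
        rw [h]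
        abel
    · simp only [evalZ_append, evalZ_cons, evalZ_nil, evalWord, List.foldl_cons, List.foldl_nil,
        one_smul, neg_smul, add_zero, sub_zero]
      rw [← sub_eq_add_neg, sub_eq_zero]
  have hzx : ∀ j, evalZ g [(1, Gen.z, [Gen.x j]), (-1, Gen.x j, [Gen.z])] = 0 ↔
      g .z * g (.x j) = g (.x j) * g .z := by
    intro j
    simp only [evalZ_cons, evalZ_nil, evalWord, List.foldl_cons, List.foldl_nil,
        one_smul, neg_smul, add_zero]
    rw [← sub_eq_add_neg, sub_eq_zero]
  have hpe : ∀ k, evalZ g [(1, Gen.p, [Gen.e k])] = 0 ↔ g .p * g (.e k) = 0 := by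
    intro k
    simp only [evalZ_cons, evalZ_nil, evalWord, List.foldl_cons, List.foldl_nil,
        one_smul, add_zero]
  have hr0 : evalZ g ([(1, Gen.z, [Gen.q0])] ++
      ((List.finRange a).map fun k => (1, Gen.e k, [Gen.q1 k])) ++
      ((List.finRange b).map fun s => ((Q s).d, Gen.z, [Gen.q2 s]))) = 0 ↔
      g .z * g .q0 + ∑ k, g (.e k) * g (.q1 k) + ∑ s, (Q s).d • (g .z * g (.q2 s)) = 0 := by
    simp only [evalZ_append, evalZ_cons, evalZ_nil, evalZ_map, evalWord, List.foldl_cons,
      List.foldl_nil, one_smul, add_zero, sum_finRange]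
  have hr1 : ∀ k, evalZ g ([(1, Gen.z, [Gen.q1 k])] ++
      ((List.finRange b).flatMap fun s => [((Q s).B k, Gen.z, [Gen.q2 s])] ++
        ((List.finRange a).map fun i => (-(Q s).A i k, Gen.e i, [Gen.q2 s])))) = 0 ↔
      g .z * g (.q1 k) + ∑ s, ((Q s).B k • (g .z * g (.q2 s)) -
        ∑ i, (Q s).A i k • (g (.e i) * g (.q2 s))) = 0 := by
    intro k
    simp only [evalZ_append, evalZ_cons, evalZ_nil, evalZ_map, evalZ_flatMap, evalWord,
      List.foldl_cons, List.foldl_nil, one_smul, add_zero, sum_finRange, neg_smul,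
      Finset.sum_neg_distrib, ← sub_eq_add_neg]
  have hrh : ∀ i, evalZ g [(1, Gen.z, [Gen.q0]), (-1, Gen.x i, [Gen.z, Gen.q0])] = 0 ↔
      g .z * g .q0 = g (.x i) * g .z * g .q0 := by
    intro i
    simp only [evalZ_cons, evalZ_nil, evalWord, List.foldl_cons, List.foldl_nil,
        one_smul, neg_smul, add_zero]
    rw [← sub_eq_add_neg, sub_eq_zero]
  constructor
  · intro h
    refine ⟨?_, ?_, ?_, ?_, ?_, ?_⟩
    · intro j k
      rw [← hxe]
      apply h
      simp only [relL, List.mem_append, List.mem_flatMap, List.mem_map]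
      exact Or.inl (Or.inl (Or.inl (Or.inl (Or.inl
        ⟨j, List.mem_finRange j, k, List.mem_finRange k, rfl⟩))))
    · intro j
      rw [← hzx]
      apply h
      simp only [relL, List.mem_append, List.mem_flatMap, List.mem_map]
      exact Or.inl (Or.inl (Or.inl (Or.inl (Or.inr ⟨j, List.mem_finRange j, rfl⟩))))
    · intro k
      rw [← hpe]
      apply h
      simp only [relL, List.mem_append, List.mem_flatMap, List.mem_map]
      exact Or.inl (Or.inl (Or.inl (Or.inr ⟨k, List.mem_finRange k, rfl⟩)))
    · rw [← hr0]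
      apply h
      simp only [relL, List.mem_append]
      exact Or.inl (Or.inl (Or.inr (List.mem_singleton.2 rfl)))
    · intro k
      rw [← hr1]
      apply h
      simp only [relL, List.mem_append]
      exact Or.inl (Or.inr (List.mem_map.2 ⟨k, List.mem_finRange k, rfl⟩))
    · intro i hi
      rw [← hrh]
      apply h
      simp only [relL, List.mem_append]
      refine Or.inr (List.mem_flatMap.2 ⟨i, List.mem_finRange i, ?_⟩)
      rw [if_neg hi]
      exact List.mem_singleton.2 rfl
  · intro h r hr
    simp only [relL, List.mem_append] at hr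
    rcases hr with ((((hr | hr) | hr) | hr) | hr) | hr
    · obtain ⟨j, -, hr⟩ := List.mem_flatMap.1 hr
      obtain ⟨k, -, rfl⟩ := List.mem_map.1 hr
      exact (hxe j k).2 (h.xe j k)
    · obtain ⟨j, -, rfl⟩ := List.mem_map.1 hr
      exact (hzx j).2 (h.zx j)
    · obtain ⟨k, -, rfl⟩ := List.mem_map.1 hr
      exact (hpe k).2 (h.pe k)
    · rw [List.mem_singleton.1 hr]
      exact hr0.2 h.r0
    · obtain ⟨k, -, rfl⟩ := List.mem_map.1 hr
      exact (hr1 k).2 (h.r1 k)
    · obtain ⟨i, -, hr⟩ := List.mem_flatMap.1 hr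
      split_ifs at hr with hi
      · exact absurd hr List.not_mem_nil
      · rw [List.mem_singleton.1 hr]
        exact (hrh i).2 (h.rh i hi)

end

/-- The generators are finite in number. -/
theorem finite_gen (a b : ℕ) : Finite (Gen (Fin a) (Fin b)) := by
  let f : Gen (Fin a) (Fin b) → Fin 3 ⊕ Fin a ⊕ Fin a ⊕ Fin a ⊕ Fin b := fun u => match u with
    | .p => Sum.inl 0
    | .z => Sum.inl 1
    | .q0 => Sum.inl 2
    | .x v => Sum.inr (Sum.inl v)
    | .e v => Sum.inr (Sum.inr (Sum.inl v))
    | .q1 v => Sum.inr (Sum.inr (Sum.inr (Sum.inl v)))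
    | .q2 v => Sum.inr (Sum.inr (Sum.inr (Sum.inr v)))
  refine Finite.of_injective f ?_
  intro u v h
  cases u <;> cases v <;> simp_all [f]

theorem main (hA : StmArith) (hD : StmDerive) (hM : StmModel) : StmMain := by
  classical
  obtain ⟨S, hS, hS'⟩ := exists_set
  obtain ⟨a, b, n, Q, hQ⟩ := hA S hS
  have := finite_gen a b
  obtain ⟨k, ⟨e⟩⟩ : ∃ k, Nonempty (Gen (Fin a) (Fin b) ≃ Fin k) := ⟨_, ⟨Finite.equivFin _⟩⟩
  refine ⟨k, (relL n Q).map (ren e), ?_⟩
  intro K _ _ ν hν Id hId hdec
  obtain ⟨n1, hn1⟩ := hν 1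
  apply hS'
  let F : ℕ → List (ℕ × Fin k × List (Fin k)) := fun c =>
    [(n1, e Gen.p, (List.range c).map (fun _ => e (Gen.x n)) ++ [e Gen.z, e Gen.q0])]
  have hF : Computable F := by
    apply Primrec.to_comp
    have h1 : Primrec (fun c : ℕ => (List.range c).map (fun _ => e (Gen.x n))) :=
      Primrec.list_map Primrec.list_range ((Primrec.const _).to₂)
    have h2 : Primrec (fun c : ℕ => (List.range c).map (fun _ => e (Gen.x n)) ++
        [e Gen.z, e Gen.q0]) := Primrec.list_append.comp h1 (Primrec.const _)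
    have h3 : Primrec (fun c : ℕ => (n1, e Gen.p, (List.range c).map (fun _ => e (Gen.x n)) ++
        [e Gen.z, e Gen.q0])) := Primrec.pair (Primrec.const _) (Primrec.pair (Primrec.const _) h2)
    exact Primrec.list_cons.comp h3 (Primrec.const [])
  have hev : ∀ (c : ℕ) (A : Type) [NonUnitalRing A] [Module K A] (g : Fin k → A),
      evalPoly g ((F c).map fun t => (ν t.1, t.2)) = W n (fun u => g (e u)) c := by
    intro c A _ _ g
    simp only [F, List.map_cons, List.map_nil, evalPoly, List.sum_cons, List.sum_nil, hn1,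
      one_smul, add_zero, evalWord, List.foldl_append, List.foldl_cons, List.foldl_nil, W]
    rw [List.map_const', List.length_range, ← List.map_replicate, List.foldl_map]
  have hrel : ∀ (A : Type) [NonUnitalRing A] [Module K A] (g : Fin k → A),
      (∀ r ∈ ((relL n Q).map (ren e)).map (fun r => r.map fun t => ((t.1 : K), t.2)),
        evalPoly g r = 0) ↔ Rel n Q (fun u => g (e u)) := by
    intro A _ _ g
    rw [← relL_iff]
    simp only [List.mem_map, forall_exists_index, and_imp, forall_apply_eq_imp_iff₂,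
      evalPoly_cast, evalZ_ren]
  refine (cp_comp hdec hF).of_eq fun c => ?_
  rw [hQ]
  constructor
  · intro h
    by_contra hc
    obtain ⟨A, i1, i2, i3, i4, g, hW, hR, hne⟩ := hM K (Fin a) (Fin b) n Q c hc
    have h1 := h A (hId A hW) (fun u => g (e.symm u))
      ((hrel A _).2 (by simpa using hR))
    rw [hev] at h1
    exact hne (by simpa using h1)
  · intro h A _ _ _ _ hV g hg
    rw [hev]
    exact hD _ _ n Q A _ ((hrel A g).1 hg) c h

end Pool.Agent.Y817.WK
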