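import Pool.Agent.Y817.WK.Stm

/-!
# The model
-/

set_option autoImplicit false

namespace Pool.Agent.Y817.WK

open MvPolynomial

/-- WK-MODEL. -/
def StmModel : Prop := ∀ (K : Type) [Field K] [CharZero K] (V ι : Type) [Fintype V]
  [DecidableEq V] [Fintype ι] (n : V) (Q : ι → Quad V) (c : ℕ), ¬ Sol n Q c →
  ∃ (A : Type) (_ : NonUnitalRing A) (_ : Module K A) (_ : IsScalarTower K A A)
    (_ : SMulCommClass K A A) (g : Gen V ι → A), InW A ∧ Rel n Q g ∧ W n g c ≠ 0

/-- The differential system. -/
noncomputable def sys {K V ι : Type} [Field K] [Fintype V] [DecidableEq V] (n : V)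
    (Q : ι → Quad V) :
    (MvPolynomial V K × (V → MvPolynomial V K) × (V → MvPolynomial V K)) →ₗ[K]
      (Unit ⊕ V ⊕ ι → MvPolynomial V K) where
  toFun t := Sum.elim (fun _ => t.1 + ∑ i, (if i = n then 0 else (1 - X i) * t.2.2 i))
    (Sum.elim (fun k => t.2.1 k - euler k t.1)
      (fun s => (Q s).d • t.1 + ∑ k, ((Q s).B k • t.2.1 k + ∑ i, (Q s).A i k • euler i (t.2.1 k))))
  map_add' t t' := by
    funext l
    rcases l with l | k | s
    · simp only [Sum.elim_inl, Prod.fst_add, Prod.snd_add, Pi.add_apply]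
      rw [add_add_add_comm, ← Finset.sum_add_distrib]
      congr 1
      refine Finset.sum_congr rfl fun i _ => ?_
      split_ifs
      · simp
      · ring
    · simp only [Sum.elim_inl, Sum.elim_inr, Prod.fst_add, Prod.snd_add, Pi.add_apply, euler, map_add]
      ring
    · simp only [Sum.elim_inr, Prod.fst_add, Prod.snd_add, Pi.add_apply, euler, map_add, smul_add,
        mul_add, Finset.sum_add_distrib]
      abel
  map_smul' r t := by
    funext l
    rcases l with l | k | s
    · simp only [Sum.elim_inl, Prod.smul_fst, Prod.smul_snd, Pi.smul_apply, RingHom.id_apply,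
        smul_add, Finset.smul_sum]
      congr 1
      refine Finset.sum_congr rfl fun i _ => ?_
      split_ifs
      · simp
      · rw [mul_smul_comm]
    · simp only [Sum.elim_inl, Sum.elim_inr, Prod.smul_fst, Prod.smul_snd, Pi.smul_apply,
        RingHom.id_apply, euler, Derivation.map_smul, mul_smul_comm, smul_sub]
    · simp only [Sum.elim_inr, Prod.smul_fst, Prod.smul_snd, Pi.smul_apply, RingHom.id_apply,
        euler, Derivation.map_smul, mul_smul_comm, smul_add, Finset.smul_sum]
      congr 1
      · rw [smul_comm]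
      · refine Finset.sum_congr rfl fun k _ => ?_
        congr 1
        · rw [smul_comm]
        · refine Finset.sum_congr rfl fun i _ => ?_
          rw [smul_comm]

/-- The component maps. -/
noncomputable def comp {K V ι : Type} [Field K] [Fintype V] [DecidableEq V] [DecidableEq ι] (n : V)
    (Q : ι → Quad V) (l : Unit ⊕ V ⊕ ι) : MvPolynomial V K →ₗ[K]
      ((Unit ⊕ V ⊕ ι → MvPolynomial V K) ⧸ LinearMap.range (sys (K := K) n Q)) :=
  (Submodule.mkQ _) ∘ₗ (LinearMap.single K (fun _ => MvPolynomial V K) l)

/-- The derivation `- X_k d/dX_k`. -/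
noncomputable def ned {K V : Type} [Field K] (k : V) :
    Derivation K (MvPolynomial V K) (MvPolynomial V K) :=
  -((X k : MvPolynomial V K) • pderiv k)

theorem ned_apply {K V : Type} [Field K] (k : V) (f : MvPolynomial V K) :
    ned k f = - euler k f := by
  simp [ned, euler, Derivation.neg_apply, Derivation.smul_apply]

theorem sum_comp {K V ι : Type} [Field K] [Fintype V] [DecidableEq V] [Fintype ι] [DecidableEq ι]
    (n : V) (Q : ι → Quad V) (w : Unit ⊕ V ⊕ ι → MvPolynomial V K) :
    ∑ l, comp n Q l (w l) = Submodule.Quotient.mk (p := LinearMap.range (sys (K := K) n Q)) w := by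
  unfold comp
  simp only [LinearMap.comp_apply, ← map_sum]
  rw [Submodule.mkQ_apply]
  congr 1
  funext l
  simp only [Finset.sum_apply, LinearMap.single_apply]
  rw [Finset.sum_eq_single l]
  · simp
  · intro b _ hb
    simp [hb.symm]
  · simp

theorem rel_of {K V ι : Type} [Field K] [Fintype V] [DecidableEq V] [Fintype ι] [DecidableEq ι]
    (n : V) (Q : ι → Quad V) (f : MvPolynomial V K) (g h : V → MvPolynomial V K) :
    comp n Q (Sum.inl ()) (f + ∑ i, (if i = n then 0 else (1 - X i) * h i)) +
      (∑ k, comp n Q (Sum.inr (Sum.inl k)) (g k - euler k f) +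
        ∑ s, comp n Q (Sum.inr (Sum.inr s)) ((Q s).d • f +
          ∑ k, ((Q s).B k • g k + ∑ i, (Q s).A i k • euler i (g k)))) = 0 := by
  have h1 := sum_comp n Q (sys (K := K) n Q (f, g, h))
  rw [Fintype.sum_sum_type, Fintype.sum_sum_type] at h1
  have h2 : (Submodule.Quotient.mk (p := LinearMap.range (sys (K := K) n Q))
      (sys (K := K) n Q (f, g, h))) = 0 := by
    rw [Submodule.Quotient.mk_eq_zero]
    exact ⟨_, rfl⟩
  rw [h2, Fintype.sum_unique] at h1
  exact h1

theorem comp_eq_zero {K V ι : Type} [Field K] [Fintype V] [DecidableEq V] [Fintype ι]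
    [DecidableEq ι] (n : V) (Q : ι → Quad V) (w : MvPolynomial V K)
    (h : comp n Q (Sum.inl ()) w = 0) : ∃ (f : MvPolynomial V K) (g h : V → MvPolynomial V K),
      f + ∑ i, (if i = n then 0 else (1 - X i) * h i) = w ∧ (∀ k, g k = euler k f) ∧
      (∀ s, (Q s).d • f + ∑ k, ((Q s).B k • g k + ∑ i, (Q s).A i k • euler i (g k)) = 0) := by
  unfold comp at h
  rw [LinearMap.comp_apply, Submodule.mkQ_apply, Submodule.Quotient.mk_eq_zero] at h
  obtain ⟨⟨f, g, h'⟩, hf⟩ := h
  refine ⟨f, g, h', ?_, ?_, ?_⟩
  · have := congrFun hf (Sum.inl ())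
    simpa [sys, LinearMap.single_apply] using this
  · intro k
    have := congrFun hf (Sum.inr (Sum.inl k))
    simp [sys, LinearMap.single_apply] at this
    exact sub_eq_zero.1 this
  · intro s
    have := congrFun hf (Sum.inr (Sum.inr s))
    simpa [sys, LinearMap.single_apply] using this

theorem model (hT : StmTri) (hP : StmPde) : StmModel := by
  classical
  intro K _ _ V ι _ _ _ n Q c hc
  obtain ⟨A, i1, i2, i3, i4, β, U, Qm, Qf, Mm, hW, hM0, hMi, hadd, hmul, hU0, hUβ, hβf, hβm, hUm,
    hUf⟩ := hT K (MvPolynomial V K)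
      ((Unit ⊕ V ⊕ ι → MvPolynomial V K) ⧸ LinearMap.range (sys (K := K) n Q))
  have hβ0 : β 0 0 0 = 0 := by
    have := hadd 0 0 0 0 0 0
    simpa using this
  let g : Gen V ι → A := fun u => match u with
    | .p => U 1 0
    | .x v => β (X v) 0 0
    | .e k => β 0 (ned k) 0
    | .z => β 0 0 1
    | .q0 => Qm (comp n Q (Sum.inl ()))
    | .q1 k => Qm (comp n Q (Sum.inr (Sum.inl k)))
    | .q2 s => Qm (comp n Q (Sum.inr (Sum.inr s)))
  have hz : ∀ φ : MvPolynomial V K →ₗ[K] ((Unit ⊕ V ⊕ ι → MvPolynomial V K) ⧸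
      LinearMap.range (sys (K := K) n Q)), β 0 0 1 * Qm φ = Qf φ := by
    intro φ
    rw [hβm]
    congr 1
    ext f
    simp
  have he : ∀ k, ∀ φ : MvPolynomial V K →ₗ[K] ((Unit ⊕ V ⊕ ι → MvPolynomial V K) ⧸
      LinearMap.range (sys (K := K) n Q)), β 0 (ned k) 0 * Qm φ =
        Qf (φ ∘ₗ ((ned k : Derivation K (MvPolynomial V K) (MvPolynomial V K)) :
          MvPolynomial V K →ₗ[K] MvPolynomial V K)) := by
    intro k φ
    rw [hβm]
    congr 1
    ext f
    simp
  refine ⟨A, i1, i2, i3, i4, g, hW, ?_, ?_⟩
  · refine ⟨?_, ?_, ?_, ?_, ?_, ?_⟩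
    · intro j k
      show β (X j) 0 0 * β 0 (ned k) 0 = β 0 (ned k) 0 * β (X j) 0 0 -
        (if j = k then β (X k) 0 0 * β 0 0 1 else 0)
      rw [eq_sub_iff_add_eq]
      split_ifs with h
      · subst h
        rw [hmul, hmul, hmul, hadd]
        simp [ned_apply, euler]
      · rw [hmul, hmul, add_zero]
        simp [ned_apply, euler, h]
    · intro j
      show β 0 0 1 * β (X j) 0 0 = β (X j) 0 0 * β 0 0 1
      rw [hmul, hmul]
      simp
    · intro k
      show U 1 0 * β 0 (ned k) 0 = 0
      rw [hUβ]
      simp [hU0]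
    · show β 0 0 1 * Qm (comp n Q (Sum.inl ())) + ∑ k, β 0 (ned k) 0 *
        Qm (comp n Q (Sum.inr (Sum.inl k))) +
        ∑ s, (Q s).d • (β 0 0 1 * Qm (comp n Q (Sum.inr (Sum.inr s)))) = 0
      simp only [hz, he, ← map_zsmul, ← map_sum, ← map_add]
      convert map_zero Qf
      refine LinearMap.ext fun f => ?_
      have := rel_of n Q f (fun _ => 0) (fun _ => 0)
      simp only [mul_zero, ite_self, Finset.sum_const_zero, add_zero, zero_sub, smul_zero,
        euler, map_zero] at this
      simp only [LinearMap.add_apply, LinearMap.sum_apply, LinearMap.comp_apply,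
        LinearMap.smul_apply, LinearMap.zero_apply, Derivation.coeFn_coe, ned_apply]
      simp only [euler]
      simp only [map_zsmul] at this
      rw [← this]
      abel
    · intro k
      show β 0 0 1 * Qm (comp n Q (Sum.inr (Sum.inl k))) +
        ∑ s, ((Q s).B k • (β 0 0 1 * Qm (comp n Q (Sum.inr (Sum.inr s)))) -
          ∑ i, (Q s).A i k • (β 0 (ned i) 0 * Qm (comp n Q (Sum.inr (Sum.inr s))))) = 0
      simp only [hz, he, ← map_zsmul, ← map_sum, ← map_sub, ← map_add]
      convert map_zero Qf
      refine LinearMap.ext fun f => ?_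
      have := rel_of n Q 0 (Pi.single k f) (fun _ => 0)
      have e1 : ∀ s : ι, ∑ k_1, ((Q s).B k_1 • (Pi.single k f : V → MvPolynomial V K) k_1 +
          ∑ i, (Q s).A i k_1 • euler i ((Pi.single k f : V → MvPolynomial V K) k_1)) =
          (Q s).B k • f + ∑ i, (Q s).A i k • euler i f := by
        intro s
        rw [Finset.sum_eq_single k]
        · simp
        · intro b _ hb
          simp [hb, euler]
        · simp
      simp only [e1] at this
      simp only [mul_zero, ite_self, Finset.sum_const_zero, add_zero, smul_zero, zero_add,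
        euler, map_zero, sub_zero] at this
      rw [Finset.sum_eq_single k] at this
      · simp only [LinearMap.add_apply, LinearMap.sum_apply, LinearMap.comp_apply,
          LinearMap.smul_apply, LinearMap.zero_apply, LinearMap.sub_apply, Derivation.coeFn_coe,
          ned_apply]
        simp only [euler]
        simp only [map_zsmul, map_add, map_sum, Pi.single_eq_same] at this
        rw [← this]
        simp [sub_eq_add_neg]
      · intro b _ hb
        simp [hb]
      · simp
    · intro i hi
      show β 0 0 1 * Qm (comp n Q (Sum.inl ())) = β (X i) 0 0 * β 0 0 1 * Qm (comp n Q (Sum.inl ()))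
      rw [mul_assoc, hz, hβf]
      congr 1
      refine LinearMap.ext fun f => ?_
      have := rel_of n Q 0 (fun _ => 0) (Pi.single i f)
      have e1 : (∑ x, if x = n then (0 : MvPolynomial V K) else
          (1 - X x) * (Pi.single i f : V → MvPolynomial V K) x) = (1 - X i) * f := by
        rw [Finset.sum_eq_single i]
        · simp [hi]
        · intro b _ hb
          simp [hb]
        · simp
      rw [e1] at this
      simp only [euler, map_zero, mul_zero, sub_zero, Finset.sum_const_zero, smul_zero, add_zero,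
        zero_add] at this
      rw [sub_mul, one_mul, map_sub, sub_eq_zero] at this
      simpa using this
  · have h1 : ∀ m : ℕ, (List.replicate m (Gen.x n : Gen V ι)).foldl (fun u y => u * g y) (g .p) =
        U (X n ^ m) 0 := by
      intro m
      induction m with
      | zero => simp [g]
      | succ m ih =>
        rw [List.replicate_succ', List.foldl_append, ih]
        show U (X n ^ m) 0 * β (X n) 0 0 = _
        rw [hUβ]
        simp [pow_succ]
    intro h
    unfold W at h
    rw [h1] at h
    have h2 : U (X n ^ c) 0 * β 0 0 1 = U 0 (X n ^ c) := by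
      rw [hUβ]
      simp
    have h3 : U (X n ^ c) 0 * g .z * g .q0 = Mm (comp n Q (Sum.inl ()) (X n ^ c)) := by
      show U (X n ^ c) 0 * β 0 0 1 * Qm (comp n Q (Sum.inl ())) = _
      rw [h2, hUm]
    rw [h3, ← hM0] at h
    obtain ⟨f, g', h', e1, e2, e3⟩ := comp_eq_zero n Q _ (hMi h)
    exact hc (hP K V ι n Q c f g' h' e1 e2 e3)

end Pool.Agent.Y817.WK
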