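import Pool.Agent.Y817.WK.Defs

/-!
# Parts of project WK
-/

set_option autoImplicit false

namespace Pool.Agent.Y817.WK

/-! ### Arithmetic -/

/-- A quadratic polynomial with integral coefficients. -/
structure Quad (V : Type) where
  A : V → V → ℤ
  B : V → ℤ
  d : ℤ

/-- Its value. -/
def Quad.val {V : Type} [Fintype V] (q : Quad V) (y : V → ℤ) : ℤ :=
  (∑ i, ∑ k, q.A i k * y i * y k) + (∑ k, q.B k * y k) + q.d

/-- `c` is the value of the unknown `n` in a solution of the system in natural numbers. -/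
def Sol {V ι : Type} [Fintype V] (n : V) (Q : ι → Quad V) (c : ℕ) : Prop :=
  ∃ y : V → ℕ, y n = c ∧ ∀ s, (Q s).val (fun v => (y v : ℤ)) = 0

/-- WK-ARITH. -/
def StmArith : Prop := ∀ S : ℕ → Prop, REPred S →
  ∃ (a b : ℕ) (n : Fin a) (Q : Fin b → Quad (Fin a)), ∀ c : ℕ, S c ↔ Sol n Q c

/-! ### The relations -/

/-- The generators of the algebra. -/
inductive Gen (V ι : Type) : Type
  | p : Gen V ι
  | x : V → Gen V ι
  | e : V → Gen V ι
  | z : Gen V ι
  | q0 : Gen V ι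
  | q1 : V → Gen V ι
  | q2 : ι → Gen V ι

/-- The relations. -/
structure Rel {V ι : Type} [Fintype V] [DecidableEq V] [Fintype ι] (n : V) (Q : ι → Quad V)
    {A : Type} [NonUnitalRing A] (g : Gen V ι → A) : Prop where
  xe : ∀ j k, g (.x j) * g (.e k) = g (.e k) * g (.x j) - (if j = k then g (.x k) * g .z else 0)
  zx : ∀ j, g .z * g (.x j) = g (.x j) * g .z
  pe : ∀ k, g .p * g (.e k) = 0
  r0 : g .z * g .q0 + ∑ k, g (.e k) * g (.q1 k) + ∑ s, (Q s).d • (g .z * g (.q2 s)) = 0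
  r1 : ∀ k, g .z * g (.q1 k) + ∑ s, ((Q s).B k • (g .z * g (.q2 s)) -
    ∑ i, (Q s).A i k • (g (.e i) * g (.q2 s))) = 0
  rh : ∀ i, i ≠ n → g .z * g .q0 = g (.x i) * g .z * g .q0

/-- The word `p x_n ^ c z q_0`. -/
def W {V ι : Type} (n : V) {A : Type} [NonUnitalRing A] (g : Gen V ι → A) (c : ℕ) : A :=
  ((List.replicate c (Gen.x n : Gen V ι)).foldl (fun u y => u * g y) (g .p)) * g .z * g .q0

/-- WK-DERIVE. -/
def StmDerive : Prop := ∀ (V ι : Type) [Fintype V] [DecidableEq V] [Fintype ι] (n : V)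
  (Q : ι → Quad V) (A : Type) [NonUnitalRing A] (g : Gen V ι → A), Rel n Q g →
  ∀ c : ℕ, Sol n Q c → W n g c = 0

/-! ### Differential equations -/

/-- The Euler operator `X_i d/dX_i`. -/
noncomputable def euler {V K : Type} [Field K] (i : V) (f : MvPolynomial V K) :
    MvPolynomial V K :=
  MvPolynomial.X i * MvPolynomial.pderiv i f

/-- WK-PDE. -/
def StmPde : Prop := ∀ (K : Type) [Field K] [CharZero K] (V ι : Type) [Fintype V] [DecidableEq V]
  [Fintype ι] (n : V) (Q : ι → Quad V) (c : ℕ) (f : MvPolynomial V K) (g h : V → MvPolynomial V K),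
  f + ∑ i, (if i = n then 0 else (1 - MvPolynomial.X i) * h i) = MvPolynomial.X n ^ c →
  (∀ k, g k = euler k f) →
  (∀ s, (Q s).d • f + ∑ k, ((Q s).B k • g k + ∑ i, (Q s).A i k • euler i (g k)) = 0) →
  Sol n Q c

/-! ### The algebra -/

/-- WK-TRI. For a commutative `K`-algebra `S` and a `K`-module `M` there is an algebra with elements
`β a δ c` (multiplication by `a` and the operator `δ + c`), `U f h` (row vectors), `Qm φ`, `Qf ψ`
(column vectors) and `Mm m`, with the following multiplication rules. -/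
def StmTri : Prop := ∀ (K : Type) [Field K] (S : Type) [CommRing S] [Algebra K S] (M : Type)
  [AddCommGroup M] [Module K M],
  ∃ (A : Type) (_ : NonUnitalRing A) (_ : Module K A) (_ : IsScalarTower K A A)
    (_ : SMulCommClass K A A) (β : S → Derivation K S S → S → A) (U : S → S → A)
    (Qm Qf : (S →ₗ[K] M) →+ A) (Mm : M → A),
    InW A ∧ Mm 0 = 0 ∧ Function.Injective Mm ∧
    (∀ a δ c a' δ' c', β a δ c + β a' δ' c' = β (a + a') (δ + δ') (c + c')) ∧
    (∀ a δ c a' δ' c', β a δ c * β a' δ' c' =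
      β (a * a') (a' • δ + a • δ') (a' * c + a * c' + δ' a)) ∧
    (U 0 0 = 0) ∧
    (∀ f h a δ c, U f h * β a δ c = U (f * a) (h * a + δ f + c * f)) ∧
    (∀ a c δ (φ : S →ₗ[K] M), β a δ c * Qf φ = Qf (φ ∘ₗ LinearMap.mulLeft K a)) ∧
    (∀ c δ (φ : S →ₗ[K] M), β 0 δ c * Qm φ =
      Qf (φ ∘ₗ ((δ : S →ₗ[K] S) + LinearMap.mulLeft K c))) ∧
    (∀ f h φ, U f h * Qm φ = Mm (φ h)) ∧
    (∀ f h φ, U f h * Qf φ = Mm (φ f))

end Pool.Agent.Y817.WK
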